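import Mathlib

set_option autoImplicit false
set_option linter.all false

namespace Pool.Agent.Results.MP_62fa17_nt.ThreeParameter

open PowerSeries Finset

/-- the tuple `l` of length `n`, continued by zeros; `ext l i` is `λ_{i+1}` -/
def ext {n : ℕ} (l : Fin n → ℕ) (i : ℕ) : ℕ := if h : i < n then l ⟨i, h⟩ else 0

/-- the set `Λ_n` of the `n`-tuples `λ_1 ≥ … ≥ λ_n ≥ 0` of sum `n` -/
def Lam (n : ℕ) : Finset (Fin n → ℕ) :=
  (Fintype.piFinset fun _ : Fin n => range (n + 1)).filter fun l => Antitone l ∧ ∑ i, l i = n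

/-- the product `C(λ)` of the binomial coefficients `binom(λ_i, λ_{i+1})`, `1 ≤ i ≤ n` -/
def Cb {n : ℕ} (l : Fin n → ℕ) : ℕ := ∏ i ∈ range n, (ext l i).choose (ext l (i + 1))

/-- the weight `∏_{i=1}^n (w i)^{λ_i}` -/
def wt {R : Type} [CommRing R] {n : ℕ} (w : ℕ → R) (l : Fin n → ℕ) : R :=
  ∏ i ∈ range n, w (i + 1) ^ ext l i

/-- the weights `c (s + i - 1) / i` -/
def wsc {K : Type} [Field K] (s c : K) (i : ℕ) : K := c * (s + (i : K) - 1) / (i : K)

/-- the generalised binomial coefficient `m (m-1) ⋯ (m-a+1) / a!` -/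
def gb {K : Type} [Field K] (m : K) (a : ℕ) : K := (∏ j ∈ range a, (m - (j : K))) / (a.factorial : K)

/-- the series `x_1 (1 + x_2 (1 + ⋯ (1 + x_m)))` with `x_i = w i * X`, weights counted from `s` -/
noncomputable def Xs {R : Type} [CommRing R] (w : ℕ → R) : ℕ → ℕ → R⟦X⟧
  | _, 0 => 0
  | s, m + 1 => (C (w s) * X) * (1 + Xs w (s + 1) m)

theorem ext_zero {m : ℕ} (a : ℕ) (l : Fin m → ℕ) : ext (Fin.cons a l : Fin (m + 1) → ℕ) 0 = a := by
  unfold ext
  rw [dif_pos (by omega)]
  rfl

theorem ext_succ {m : ℕ} (a : ℕ) (l : Fin m → ℕ) (i : ℕ) :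
    ext (Fin.cons a l : Fin (m + 1) → ℕ) (i + 1) = ext l i := by
  unfold ext
  by_cases h : i < m
  · rw [dif_pos (by omega), dif_pos h]
    rfl
  · rw [dif_neg (by omega), dif_neg h]

section ring

variable {R : Type} [CommRing R]

/-- the sum over all tuples bounded by `B`, with first binomial coefficient `binom(b, λ_1)` -/
theorem key (w : ℕ → R) (B : ℕ) (m : ℕ) : ∀ (s b : ℕ), b ≤ B →
    ∑ l ∈ Fintype.piFinset fun _ : Fin m => range (B + 1),
      C (((b.choose (ext l 0) : ℕ) : R) * (∏ i ∈ range m, (((ext l i).choose (ext l (i + 1)) : ℕ) : R)) *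
        ∏ i ∈ range m, w (s + i) ^ ext l i) * X ^ (∑ i, l i) = (1 + Xs w s m) ^ b := by
  induction m with
  | zero =>
    intro s b hb
    simp [Xs, ext]
  | succ m ih =>
    intro s b hb
    have hpi : (Fintype.piFinset fun _ : Fin (m + 1) => range (B + 1)) =
        ((range (B + 1)) ×ˢ (Fintype.piFinset fun _ : Fin m => range (B + 1))).map
          ((Fin.consEquiv fun _ : Fin (m + 1) => ℕ).toEmbedding) := by
      ext l
      simp only [Fintype.mem_piFinset, mem_map_equiv, mem_product, Fin.consEquiv_symm_apply]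
      constructor
      · intro h
        exact ⟨h 0, fun i => h i.succ⟩
      · rintro ⟨h0, h1⟩ i
        refine Fin.cases h0 (fun i => h1 i) i
    rw [hpi, sum_map, sum_product]
    have hstep : ∀ a ∈ range (B + 1), ∑ l ∈ Fintype.piFinset fun _ : Fin m => range (B + 1),
        (C (((b.choose (ext ((Fin.consEquiv fun _ : Fin (m + 1) => ℕ).toEmbedding (a, l)) 0) : ℕ) : R) *
          (∏ i ∈ range (m + 1), (((ext ((Fin.consEquiv fun _ : Fin (m + 1) => ℕ).toEmbedding (a, l)) i).choose
            (ext ((Fin.consEquiv fun _ : Fin (m + 1) => ℕ).toEmbedding (a, l)) (i + 1)) : ℕ) : R)) *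
          ∏ i ∈ range (m + 1), w (s + i) ^ ext ((Fin.consEquiv fun _ : Fin (m + 1) => ℕ).toEmbedding (a, l)) i) *
          X ^ (∑ i, (Fin.consEquiv fun _ : Fin (m + 1) => ℕ).toEmbedding (a, l) i) : R⟦X⟧) =
        C ((b.choose a : ℕ) : R) * (C (w s) * X) ^ a * (1 + Xs w (s + 1) m) ^ a := by
      intro a ha
      rw [← ih (s + 1) a (by have := mem_range.mp ha; omega), mul_sum]
      refine sum_congr rfl fun l _ => ?_
      have e : (Fin.consEquiv fun _ : Fin (m + 1) => ℕ).toEmbedding (a, l) =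
          (Fin.cons a l : Fin (m + 1) → ℕ) := rfl
      rw [e, prod_range_succ', prod_range_succ']
      simp only [ext_zero, ext_succ, Fin.sum_univ_succ, Fin.cons_zero, Fin.cons_succ, Nat.add_zero]
      have e2 : ∏ k ∈ range m, w (s + (k + 1)) ^ ext l k = ∏ k ∈ range m, w (s + 1 + k) ^ ext l k :=
        prod_congr rfl fun k _ => by rw [show s + (k + 1) = s + 1 + k by ring]
      rw [e2]
      simp only [map_mul, map_pow]
      ring
    rw [sum_congr rfl hstep]
    have hbin : (1 + Xs w s (m + 1)) ^ b =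
        ∑ a ∈ range (b + 1), C ((b.choose a : ℕ) : R) * (C (w s) * X) ^ a * (1 + Xs w (s + 1) m) ^ a := by
      rw [add_comm, add_pow]
      refine sum_congr rfl fun a _ => ?_
      show (C (w s) * X * (1 + Xs w (s + 1) m)) ^ a * 1 ^ (b - a) * _ = _
      rw [one_pow, mul_one, mul_pow]
      simp only [map_natCast]
      ring
    rw [hbin]
    symm
    refine sum_subset (fun a ha => ?_) (fun a _ ha => ?_)
    · have := mem_range.mp ha
      exact mem_range.mpr (by omega)
    · have : b < a := by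
        by_contra h
        exact ha (mem_range.mpr (by omega))
      rw [Nat.choose_eq_zero_of_lt this]
      simp

/-- the sum over all tuples bounded by `B`, with a function of the first entry as weight -/
theorem key' (w : ℕ → R) (h : ℕ → R) (B m s : ℕ) :
    ∑ l ∈ Fintype.piFinset fun _ : Fin (m + 1) => range (B + 1),
      C (h (ext l 0) * (∏ i ∈ range (m + 1), (((ext l i).choose (ext l (i + 1)) : ℕ) : R)) *
        ∏ i ∈ range (m + 1), w (s + i) ^ ext l i) * X ^ (∑ i, l i) =
      ∑ a ∈ range (B + 1), C (h a) * (Xs w s (m + 1)) ^ a := by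
  have hpi : (Fintype.piFinset fun _ : Fin (m + 1) => range (B + 1)) =
      ((range (B + 1)) ×ˢ (Fintype.piFinset fun _ : Fin m => range (B + 1))).map
        ((Fin.consEquiv fun _ : Fin (m + 1) => ℕ).toEmbedding) := by
    ext l
    simp only [Fintype.mem_piFinset, mem_map_equiv, mem_product, Fin.consEquiv_symm_apply]
    constructor
    · intro h
      exact ⟨h 0, fun i => h i.succ⟩
    · rintro ⟨h0, h1⟩ i
      refine Fin.cases h0 (fun i => h1 i) i
  rw [hpi, sum_map, sum_product]
  refine sum_congr rfl fun a ha => ?_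
  have hx : C (h a) * (Xs w s (m + 1)) ^ a =
      C (h a) * (C (w s) * X) ^ a * (1 + Xs w (s + 1) m) ^ a := by
    show C (h a) * (C (w s) * X * (1 + Xs w (s + 1) m)) ^ a = _
    rw [mul_pow, mul_assoc]
  rw [hx, ← key w B m (s + 1) a (by have := mem_range.mp ha; omega), mul_sum]
  refine sum_congr rfl fun l _ => ?_
  have e : (Fin.consEquiv fun _ : Fin (m + 1) => ℕ).toEmbedding (a, l) =
      (Fin.cons a l : Fin (m + 1) → ℕ) := rfl
  rw [e, prod_range_succ', prod_range_succ']
  simp only [ext_zero, ext_succ, Fin.sum_univ_succ, Fin.cons_zero, Fin.cons_succ, Nat.add_zero]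
  have e2 : ∏ k ∈ range m, w (s + (k + 1)) ^ ext l k = ∏ k ∈ range m, w (s + 1 + k) ^ ext l k :=
    prod_congr rfl fun k _ => by rw [show s + (k + 1) = s + 1 + k by ring]
  rw [e2]
  simp only [map_mul, map_pow]
  ring

theorem ext_coe {n : ℕ} (l : Fin n → ℕ) (i : Fin n) : ext l i.val = l i := by
  unfold ext
  rw [dif_pos i.isLt]

theorem antitone_of {n : ℕ} (l : Fin n → ℕ)
    (h : ∀ i ∈ range n, (ext l i).choose (ext l (i + 1)) ≠ 0) : Antitone l := by
  have h1 : Antitone (ext l) := by
    refine antitone_nat_of_succ_le fun i => ?_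
    rcases lt_or_ge i n with hi | hi
    · have := h i (mem_range.mpr hi)
      by_contra hlt
      push Not at hlt
      exact this (Nat.choose_eq_zero_of_lt hlt)
    · have : ext l (i + 1) = 0 := by
        unfold ext
        rw [dif_neg (by omega)]
      rw [this]
      exact Nat.zero_le _
  intro i j hij
  rw [← ext_coe l i, ← ext_coe l j]
  exact h1 hij

theorem total (w : ℕ → R) (h : ℕ → R) (n : ℕ) (hn : 1 ≤ n) :
    ∑ l ∈ Lam n, h (ext l 0) * (Cb l : R) * wt w l =
      coeff n (∑ a ∈ range (n + 1), C (h a) * (Xs w 1 n) ^ a) := by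
  obtain ⟨m, rfl⟩ : ∃ m, n = m + 1 := ⟨n - 1, by omega⟩
  rw [← key' w h (m + 1) m 1, map_sum, Lam, sum_filter]
  refine sum_congr rfl fun l hl => ?_
  rw [coeff_C_mul, coeff_X_pow]
  have hw : wt w l = ∏ i ∈ range (m + 1), w (1 + i) ^ ext l i := by
    unfold wt
    exact prod_congr rfl fun i _ => by rw [add_comm]
  by_cases hs : ∑ i, l i = m + 1
  · rw [if_pos hs.symm, mul_one]
    by_cases ha : Antitone l
    · rw [if_pos ⟨ha, hs⟩, hw, Cb]
      push_cast
      ring
    · rw [if_neg (fun hh => ha hh.1)]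
      have : ∃ i ∈ range (m + 1), (ext l i).choose (ext l (i + 1)) = 0 := by
        by_contra hcon
        push Not at hcon
        exact ha (antitone_of l hcon)
      obtain ⟨i, hi, hi0⟩ := this
      have : ∏ i ∈ range (m + 1), (((ext l i).choose (ext l (i + 1)) : ℕ) : R) = 0 :=
        prod_eq_zero hi (by rw [hi0]; norm_num)
      rw [this]
      ring
  · rw [if_neg (fun hh => hs hh.2), if_neg (fun hh => hs hh.symm), mul_zero]

/-- the coefficients of `Xs` -/
theorem coeff_Xs (w : ℕ → R) (m : ℕ) : ∀ s k, coeff k (Xs w s m) =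
    if 1 ≤ k ∧ k ≤ m then ∏ i ∈ range k, w (s + i) else 0 := by
  induction m with
  | zero =>
    intro s k
    rw [if_neg (by omega)]
    simp [Xs]
  | succ m ih =>
    intro s k
    show coeff k ((C (w s) * X) * (1 + Xs w (s + 1) m)) = _
    rcases k with _ | k
    · rw [if_neg (by omega)]
      simp
    · rw [mul_assoc, coeff_C_mul, mul_comm X, coeff_succ_mul_X, map_add, ih, coeff_one]
      rcases k with _ | k
      · simp
      · rw [if_neg (by omega), zero_add]
        by_cases hk : k + 1 ≤ m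
        · rw [if_pos ⟨by omega, hk⟩, if_pos ⟨by omega, by omega⟩, prod_range_succ' _ (k + 1),
            Nat.add_zero, mul_comm]
          congr 1
          exact prod_congr rfl fun i _ => by rw [show s + 1 + i = s + (i + 1) by ring]
        · rw [if_neg (by omega), if_neg (by omega), mul_zero]

/-- the limit of the series `Xs w 1 n`, plus one: `1 + w_1 X + w_1 w_2 X^2 + ⋯` -/
noncomputable def V (w : ℕ → R) : R⟦X⟧ := PowerSeries.mk fun k => ∏ i ∈ range k, w (i + 1)

theorem dvd_Xs (w : ℕ → R) (n : ℕ) : (X : R⟦X⟧) ^ (n + 1) ∣ Xs w 1 n - (V w - 1) := by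
  rw [X_pow_dvd_iff]
  intro k hk
  rw [map_sub, map_sub, coeff_Xs, coeff_one]
  unfold V
  rw [coeff_mk]
  rcases k with _ | k
  · simp
  · rw [if_pos ⟨by omega, by omega⟩, if_neg (by omega), sub_zero, sub_eq_zero]
    exact prod_congr rfl fun i _ => by rw [add_comm]

theorem sum_dvd (w : ℕ → R) (h : ℕ → R) (n : ℕ) :
    (X : R⟦X⟧) ^ (n + 1) ∣ ∑ a ∈ range (n + 1), C (h a) * (Xs w 1 n) ^ a -
      ∑ a ∈ range (n + 1), C (h a) * (V w - 1) ^ a := by
  rw [← sum_sub_distrib]
  refine dvd_sum fun a _ => ?_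
  rw [← mul_sub]
  exact Dvd.dvd.mul_left ((dvd_Xs w n).trans (sub_dvd_pow_sub_pow _ _ a)) _

/-- **the master identity** -/
theorem total' (w : ℕ → R) (h : ℕ → R) (n : ℕ) :
    ∑ l ∈ Lam n, h (ext l 0) * (Cb l : R) * wt w l =
      ∑ a ∈ range (n + 1), h a * coeff n ((V w - 1) ^ a) := by
  rcases Nat.eq_zero_or_pos n with hn | hn
  · subst hn
    have e : Lam 0 = {fun i => 0} := by
      ext l
      simp only [Lam, mem_filter, Fintype.mem_piFinset, mem_singleton]
      constructor
      · intro _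
        exact Subsingleton.elim _ _
      · intro _
        exact ⟨fun i => i.elim0, fun i => i.elim0, by simp⟩
    rw [e, sum_singleton]
    simp [ext, Cb, wt]
  · rw [total w h n hn]
    have := (X_pow_dvd_iff.mp (sum_dvd w h n)) n (by omega)
    rw [map_sub, sub_eq_zero] at this
    rw [this, map_sum]
    refine sum_congr rfl fun a _ => ?_
    rw [coeff_C_mul]

theorem X_dvd_V (w : ℕ → R) : (X : R⟦X⟧) ∣ V w - 1 := by
  rw [X_dvd_iff]
  unfold V
  simp

theorem coeff_pow_zero (w : ℕ → R) (n a : ℕ) (h : n < a) : coeff n ((V w - 1) ^ a) = 0 := by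
  have h1 : (X : R⟦X⟧) ^ a ∣ (V w - 1) ^ a := pow_dvd_pow_of_dvd (X_dvd_V w) a
  exact (X_pow_dvd_iff.mp h1) n h

/-- the part of the sum with `λ_1 = a` -/
theorem first_part (w : ℕ → R) (n a : ℕ) :
    ∑ l ∈ (Lam n).filter (fun l => ext l 0 = a), (Cb l : R) * wt w l = coeff n ((V w - 1) ^ a) := by
  have h := total' w (fun b => if b = a then (1 : R) else 0) n
  rw [sum_filter]
  have e1 : ∑ l ∈ Lam n, (if ext l 0 = a then (Cb l : R) * wt w l else 0) =
      ∑ l ∈ Lam n, (if ext l 0 = a then (1 : R) else 0) * (Cb l : R) * wt w l := by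
    refine sum_congr rfl fun l _ => ?_
    by_cases hl : ext l 0 = a
    · rw [if_pos hl, if_pos hl, one_mul]
    · rw [if_neg hl, if_neg hl, zero_mul, zero_mul]
  rw [e1, h]
  by_cases ha : a ≤ n
  · rw [sum_eq_single a]
    · rw [if_pos rfl, one_mul]
    · intro b _ hb
      rw [if_neg hb, zero_mul]
    · intro h1
      exact absurd (mem_range.mpr (by omega)) h1
  · rw [coeff_pow_zero w n a (by omega)]
    refine sum_eq_zero fun b hb => ?_
    have := mem_range.mp hb
    rw [if_neg (by omega), zero_mul]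

end ring

section field

variable {K : Type} [Field K] [CharZero K]

/-- the closed form of the coefficients: `c^n s (s+1) ⋯ (s+n-1) / n!` -/
def cf (c s : K) (n : ℕ) : K := c ^ n * (∏ j ∈ range n, (s + (j : K))) / (n.factorial : K)

theorem cf_zero (c s : K) : cf c s 0 = 1 := by simp [cf]

theorem cf_succ (c s : K) (n : ℕ) : ((n : K) + 1) * cf c s (n + 1) = c * (s + n) * cf c s n := by
  unfold cf
  rw [prod_range_succ, Nat.factorial_succ, pow_succ]
  have h1 : (n.factorial : K) ≠ 0 := by exact_mod_cast Nat.factorial_ne_zero n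
  have h2 : ((n : K) + 1) ≠ 0 := by exact_mod_cast Nat.succ_ne_zero n
  push_cast
  field_simp

theorem coeff_V (c s : K) (n : ℕ) : coeff n (V (wsc s c)) = cf c s n := by
  unfold V
  rw [coeff_mk]
  induction n with
  | zero => simp [cf_zero]
  | succ n ih =>
    rw [prod_range_succ, ih]
    have h2 : ((n : K) + 1) ≠ 0 := by exact_mod_cast Nat.succ_ne_zero n
    have h3 := cf_succ c s n
    have h4 : wsc s c (n + 1) = c * (s + n) / ((n : K) + 1) := by
      unfold wsc
      push_cast
      congr 2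
      ring
    rw [h4]
    field_simp
    rw [h3]
    ring

/-- Vandermonde's identity for the closed forms -/
theorem vander (c s t : K) (n : ℕ) :
    ∑ p ∈ antidiagonal n, cf c s p.1 * cf c t p.2 = cf c (s + t) n := by
  induction n with
  | zero => simp [cf_zero]
  | succ n ih =>
    have h2 : ((n : K) + 1) ≠ 0 := by exact_mod_cast Nat.succ_ne_zero n
    refine mul_left_cancel₀ h2 ?_
    rw [cf_succ, ← ih, mul_sum, mul_sum]
    have e1 : ∀ p ∈ antidiagonal (n + 1), ((n : K) + 1) * (cf c s p.1 * cf c t p.2) =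
        ((p.1 : K) * cf c s p.1) * cf c t p.2 + cf c s p.1 * ((p.2 : K) * cf c t p.2) := by
      intro p hp
      have : ((n : K) + 1) = (p.1 : K) + (p.2 : K) := by
        have := mem_antidiagonal.mp hp
        exact_mod_cast this.symm
      rw [this]
      ring
    rw [sum_congr rfl e1, sum_add_distrib, Nat.sum_antidiagonal_succ, Nat.sum_antidiagonal_succ']
    have e2 : ∀ p ∈ antidiagonal n, ((((p.1 + 1 : ℕ) : K)) * cf c s (p.1 + 1)) * cf c t p.2 =
        c * (s + p.1) * cf c s p.1 * cf c t p.2 := by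
      intro p _
      push_cast
      rw [cf_succ]
    have e3 : ∀ p ∈ antidiagonal n, cf c s p.1 * ((((p.2 + 1 : ℕ) : K)) * cf c t (p.2 + 1)) =
        cf c s p.1 * (c * (t + p.2) * cf c t p.2) := by
      intro p _
      push_cast
      rw [cf_succ]
    simp only []
    rw [sum_congr rfl e2, sum_congr rfl e3]
    simp only [Nat.cast_zero, zero_mul, mul_zero, zero_add]
    rw [← sum_add_distrib]
    refine sum_congr rfl fun p hp => ?_
    have : (n : K) = (p.1 : K) + (p.2 : K) := by
      have := mem_antidiagonal.mp hp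
      exact_mod_cast this.symm
    rw [this]
    ring

theorem V_mul (c s t : K) : V (wsc s c) * V (wsc t c) = V (wsc (s + t) c) := by
  ext n
  rw [coeff_mul, coeff_V, ← vander]
  refine sum_congr rfl fun p _ => ?_
  rw [coeff_V, coeff_V]

theorem V_pow (c s : K) (m : ℕ) : V (wsc s c) ^ m = V (wsc (s * m) c) := by
  induction m with
  | zero =>
    ext n
    rw [coeff_V, pow_zero, coeff_one]
    rcases n with _ | n
    · simp [cf_zero]
    · rw [if_neg (by omega)]
      unfold cf
      rw [prod_range_succ']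
      simp
  | succ m ih =>
    rw [pow_succ, ih, V_mul]
    congr 2
    push_cast
    ring

/-- the coefficients of the powers of `V - 1` -/
theorem coeff_sub_pow (c s : K) (n a : ℕ) : coeff n ((V (wsc s c) - 1) ^ a) =
    ∑ k ∈ range (a + 1), (-1) ^ (a - k) * (a.choose k : K) * cf c (s * k) n := by
  rw [sub_eq_add_neg, add_pow, map_sum]
  refine sum_congr rfl fun k _ => ?_
  rw [V_pow]
  have e : V (wsc (s * k) c) * (-1) ^ (a - k) * ((a.choose k : ℕ) : K⟦X⟧) =
      C ((-1) ^ (a - k) * (a.choose k : K)) * V (wsc (s * k) c) := by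
    simp only [map_mul, map_pow, map_neg, map_one, map_natCast]
    ring
  rw [e, coeff_C_mul, coeff_V]

theorem gb_nat (m a : ℕ) : gb (m : K) a = (m.choose a : K) := by
  unfold gb
  have h1 : (a.factorial : K) ≠ 0 := by exact_mod_cast Nat.factorial_ne_zero a
  rw [div_eq_iff h1]
  have h2 : m.descFactorial a = a.factorial * m.choose a := Nat.descFactorial_eq_factorial_mul_choose m a
  have h3 : (∏ j ∈ range a, ((m : K) - (j : K))) = ((m.descFactorial a : ℕ) : K) := by
    induction a with
    | zero => simp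
    | succ a ih =>
      rw [prod_range_succ, ih (by exact_mod_cast Nat.factorial_ne_zero a)
        (Nat.descFactorial_eq_factorial_mul_choose m a), Nat.descFactorial_succ]
      by_cases hm : a ≤ m
      · rw [Nat.cast_mul, Nat.cast_sub hm]
        ring
      · have : m.descFactorial a = 0 := Nat.descFactorial_eq_zero_iff_lt.mpr (by omega)
        rw [this]
        simp
  rw [h3, h2]
  push_cast
  ring

/-- the identity for natural `m` -/
theorem nat_case (c s : K) (n m : ℕ) :
    ∑ a ∈ range (n + 1), gb (m : K) a * coeff n ((V (wsc s c) - 1) ^ a) = cf c (s * m) n := by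
  have h1 : coeff n (V (wsc s c) ^ m) = cf c (s * m) n := by rw [V_pow, coeff_V]
  rw [← h1]
  have h2 : V (wsc s c) ^ m = ((V (wsc s c) - 1) + 1) ^ m := by ring
  rw [h2, add_pow, map_sum]
  have h3 : ∀ a ∈ range (m + 1), coeff n ((V (wsc s c) - 1) ^ a * 1 ^ (m - a) * ((m.choose a : ℕ) : K⟦X⟧)) =
      gb (m : K) a * coeff n ((V (wsc s c) - 1) ^ a) := by
    intro a _
    have e : (V (wsc s c) - 1) ^ a * 1 ^ (m - a) * ((m.choose a : ℕ) : K⟦X⟧) =
        C (m.choose a : K) * (V (wsc s c) - 1) ^ a := by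
      rw [one_pow, map_natCast]
      ring
    rw [e, coeff_C_mul, gb_nat]
  rw [sum_congr rfl h3]
  have h4 : ∀ N, n ≤ N → m ≤ N → ∑ a ∈ range (n + 1), gb (m : K) a * coeff n ((V (wsc s c) - 1) ^ a) =
      ∑ a ∈ range (N + 1), gb (m : K) a * coeff n ((V (wsc s c) - 1) ^ a) := by
    intro N hN _
    refine sum_subset (fun a ha => ?_) (fun a _ ha => ?_)
    · have := mem_range.mp ha
      exact mem_range.mpr (by omega)
    · rw [coeff_pow_zero _ n a (by
        by_contra h
        exact ha (mem_range.mpr (by omega))), mul_zero]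
  have h5 : ∀ N, n ≤ N → m ≤ N → ∑ a ∈ range (m + 1), gb (m : K) a * coeff n ((V (wsc s c) - 1) ^ a) =
      ∑ a ∈ range (N + 1), gb (m : K) a * coeff n ((V (wsc s c) - 1) ^ a) := by
    intro N _ hN
    refine sum_subset (fun a ha => ?_) (fun a _ ha => ?_)
    · have := mem_range.mp ha
      exact mem_range.mpr (by omega)
    · rw [gb_nat, Nat.choose_eq_zero_of_lt (by
        by_contra h
        exact ha (mem_range.mpr (by omega))), Nat.cast_zero, zero_mul]
  rw [h4 (max n m) (le_max_left _ _) (le_max_right _ _), h5 (max n m) (le_max_left _ _) (le_max_right _ _)]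

/-- the identity for all `m` -/
theorem all_case (c s m : K) (n : ℕ) :
    ∑ a ∈ range (n + 1), gb m a * coeff n ((V (wsc s c) - 1) ^ a) = cf c (s * m) n := by
  let P : Polynomial K := ∑ a ∈ range (n + 1),
    Polynomial.C (coeff n ((V (wsc s c) - 1) ^ a) / (a.factorial : K)) *
      ∏ j ∈ range a, (Polynomial.X - Polynomial.C (j : K))
  let Q : Polynomial K := Polynomial.C (c ^ n / (n.factorial : K)) *
    ∏ j ∈ range n, (Polynomial.C s * Polynomial.X + Polynomial.C (j : K))
  have hP : ∀ x : K, P.eval x = ∑ a ∈ range (n + 1), gb x a * coeff n ((V (wsc s c) - 1) ^ a) := by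
    intro x
    simp only [P, Polynomial.eval_finset_sum, Polynomial.eval_mul, Polynomial.eval_C,
      Polynomial.eval_prod, Polynomial.eval_sub, Polynomial.eval_X]
    refine sum_congr rfl fun a _ => ?_
    unfold gb
    ring
  have hQ : ∀ x : K, Q.eval x = cf c (s * x) n := by
    intro x
    simp only [Q, Polynomial.eval_mul, Polynomial.eval_C,
      Polynomial.eval_prod, Polynomial.eval_add, Polynomial.eval_X]
    unfold cf
    ring
  have hPQ : P = Q := by
    refine Polynomial.eq_of_infinite_eval_eq P Q ?_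
    refine Set.Infinite.mono (s := Set.range (fun k : ℕ => (k : K))) ?_
      (Set.infinite_range_of_injective Nat.cast_injective)
    rintro _ ⟨k, rfl⟩
    show P.eval (k : K) = Q.eval (k : K)
    rw [hP, hQ, nat_case]
  rw [← hP, hPQ, hQ]

/-- **the three-parameter identity** -/
theorem three (s c m : K) (n : ℕ) :
    ∑ l ∈ Lam n, gb m (ext l 0) * (Cb l : K) * wt (wsc s c) l =
      c ^ n * (∏ j ∈ range n, (s * m + (j : K))) / (n.factorial : K) := by
  rw [total', all_case]
  rfl

/-- the distribution of `λ_1` -/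
theorem dist (s c : K) (n a : ℕ) :
    ∑ l ∈ (Lam n).filter (fun l => ext l 0 = a), (Cb l : K) * wt (wsc s c) l =
      c ^ n / (n.factorial : K) * ∑ k ∈ range (a + 1),
        (-1) ^ (a - k) * (a.choose k : K) * ∏ j ∈ range n, (s * k + (j : K)) := by
  rw [first_part, coeff_sub_pow, mul_sum]
  refine sum_congr rfl fun k _ => ?_
  unfold cf
  ring

end field

/-- the weights `a_i / i` of the sum `A_n`: `a_1 = 1`, `a_i = 2 i - 3` for `i ≥ 2` -/
def w1 (i : ℕ) : ℚ := (if i = 1 then 1 else 2 * (i : ℚ) - 3) / i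

/-- the weights `(2 i - 1) / i` of the sum `B_n` -/
def w2 (i : ℕ) : ℚ := (2 * (i : ℚ) - 1) / i

/-- the sum `A_n` -/
def A (n : ℕ) : ℚ := ∑ l ∈ Lam n, (1 + (ext l 0 : ℚ)) * (Cb l : ℚ) * wt w1 l

/-- the sum `B_n` -/
def B (n : ℕ) : ℚ := ∑ l ∈ Lam n, (-1) ^ (1 + ext l 0) * (1 + (ext l 0 : ℚ)) * (Cb l : ℚ) * wt w2 l

theorem gb_neg_two (a : ℕ) : gb (-2 : ℚ) a = (-1) ^ a * (1 + a) := by
  unfold gb
  have h1 : (a.factorial : ℚ) ≠ 0 := by exact_mod_cast Nat.factorial_ne_zero a
  rw [div_eq_iff h1]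
  clear h1
  induction a with
  | zero => simp
  | succ a ih =>
    rw [prod_range_succ, ih, Nat.factorial_succ]
    push_cast
    ring

theorem w1_eq (i : ℕ) : w1 i = if i = 1 then -wsc (-1/2 : ℚ) 2 i else wsc (-1/2 : ℚ) 2 i := by
  unfold w1 wsc
  by_cases hi : i = 1
  · subst hi
    norm_num
  · rw [if_neg hi, if_neg hi]
    congr 1
    ring

theorem w2_eq : w2 = wsc (1/2 : ℚ) 2 := by
  funext i
  unfold w2 wsc
  congr 1
  ring

theorem wt_w1 {n : ℕ} (l : Fin n → ℕ) : wt w1 l = (-1) ^ ext l 0 * wt (wsc (-1/2 : ℚ) 2) l := by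
  unfold wt
  rcases n with _ | n
  · simp [ext]
  · rw [prod_range_succ', prod_range_succ' (fun i => wsc (-1/2 : ℚ) 2 (i + 1) ^ ext l i)]
    have e : ∏ k ∈ range n, w1 (k + 1 + 1) ^ ext l (k + 1) =
        ∏ k ∈ range n, wsc (-1/2 : ℚ) 2 (k + 1 + 1) ^ ext l (k + 1) := by
      refine prod_congr rfl fun k _ => ?_
      rw [w1_eq, if_neg (by omega)]
    rw [e, w1_eq, if_pos rfl, neg_eq_neg_one_mul, mul_pow]
    ring

theorem A_eq (n : ℕ) : A n = 2 ^ n := by
  have h := three (-1/2 : ℚ) 2 (-2) n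
  have e : A n = ∑ l ∈ Lam n, gb (-2 : ℚ) (ext l 0) * (Cb l : ℚ) * wt (wsc (-1/2 : ℚ) 2) l := by
    unfold A
    refine sum_congr rfl fun l _ => ?_
    rw [wt_w1, gb_neg_two]
    ring
  rw [e, h]
  have h2 : ∀ n : ℕ, ∏ j ∈ range n, ((-1/2 : ℚ) * -2 + (j : ℚ)) = (n.factorial : ℚ) := by
    intro n
    induction n with
    | zero => simp
    | succ n ih =>
      rw [prod_range_succ, ih, Nat.factorial_succ]
      push_cast
      ring
  rw [h2]
  have h1 : (n.factorial : ℚ) ≠ 0 := by exact_mod_cast Nat.factorial_ne_zero n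
  field_simp

theorem B_val (n : ℕ) : B n = -(2 ^ n * (∏ j ∈ range n, ((1/2 : ℚ) * -2 + (j : ℚ))) / (n.factorial : ℚ)) := by
  rw [← three (1/2 : ℚ) 2 (-2) n, ← sum_neg_distrib]
  unfold B
  refine sum_congr rfl fun l _ => ?_
  rw [w2_eq, gb_neg_two]
  ring

theorem B_one : B 1 = 2 := by
  rw [B_val]
  norm_num

theorem B_eq (n : ℕ) (hn : 1 < n) : B n = 0 := by
  rw [B_val]
  have : ∏ j ∈ range n, ((1/2 : ℚ) * -2 + (j : ℚ)) = 0 :=
    prod_eq_zero (mem_range.mpr hn) (by norm_num)
  rw [this]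
  simp

/-- **Full answer to Q1 and Q2, and the three-parameter family containing both.** -/
theorem result :
    -- the master identity over any commutative ring: the part of the sum with `λ_1 = a`
    (∀ (R : Type) [CommRing R] (w : ℕ → R) (n a : ℕ),
      ∑ l ∈ (Lam n).filter (fun l => ext l 0 = a), (Cb l : R) * wt w l =
        coeff n (((PowerSeries.mk fun k => ∏ i ∈ range k, w (i + 1)) - 1 : R⟦X⟧) ^ a)) ∧
    -- the distribution of `λ_1` for the weights `c (s + i - 1) / i`
    (∀ (K : Type) [Field K] [CharZero K] (s c : K) (n a : ℕ),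
      ∑ l ∈ (Lam n).filter (fun l => ext l 0 = a), (Cb l : K) * wt (wsc s c) l =
        c ^ n / (n.factorial : K) * ∑ k ∈ range (a + 1),
          (-1) ^ (a - k) * (a.choose k : K) * ∏ j ∈ range n, (s * k + (j : K))) ∧
    -- the three-parameter identity
    (∀ (K : Type) [Field K] [CharZero K] (s c m : K) (n : ℕ),
      ∑ l ∈ Lam n, gb m (ext l 0) * (Cb l : K) * wt (wsc s c) l =
        c ^ n * (∏ j ∈ range n, (s * m + (j : K))) / (n.factorial : K)) ∧
    -- the two questions
    (∀ n : ℕ, A n = 2 ^ n) ∧ B 1 = 2 ∧ (∀ n : ℕ, 1 < n → B n = 0) := by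
  refine ⟨?_, ?_, ?_, A_eq, B_one, B_eq⟩
  · intro R _ w n a
    exact first_part w n a
  · intro K _ _ s c n a
    exact dist s c n a
  · intro K _ _ s c m n
    exact three s c m n

end Pool.Agent.Results.MP_62fa17_nt.ThreeParameter
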